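import Pool.Agent.helper14.AV.Spec3

/-!
Row CRS of project AV (MP_801ee0_co): crossing of two segments and orientation determinants.
-/

set_option autoImplicit false

namespace Pool.Agent.helper14.AV

theorem CRS_param (x y : ℝ) (h : x * y < 0) : x - y ≠ 0 ∧ 0 ≤ x / (x - y) ∧ 0 ≤ 1 - x / (x - y) := by
  have hne : x - y ≠ 0 := by
    intro h0
    have h1 : x = y := sub_eq_zero.1 h0
    rw [h1] at h
    exact absurd h (not_lt.2 (mul_self_nonneg y))
  have hx2 : 0 < x * (x - y) := by nlinarith [mul_self_nonneg x]
  have hy2 : 0 < -y * (x - y) := by nlinarith [mul_self_nonneg y]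
  have hsq : 0 < (x - y) * (x - y) := mul_self_pos.2 hne
  have e1 : x / (x - y) = x * (x - y) / ((x - y) * (x - y)) := by
    field_simp
  have e2 : 1 - x / (x - y) = -y * (x - y) / ((x - y) * (x - y)) := by
    field_simp
    ring
  refine ⟨hne, ?_, ?_⟩
  · rw [e1]
    exact (div_pos hx2 hsq).le
  · rw [e2]
    exact (div_pos hy2 hsq).le

theorem CRS : CRS_stmt := by
  intro a b c d
  constructor
  · intro h
    rw [Set.disjoint_left]
    rintro x ⟨u, v, hu, hv, huv, rfl⟩ ⟨u', v', hu', hv', huv', hx⟩
    have e1 : u' * c.1 + v' * d.1 = u * a.1 + v * b.1 := by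
      have := congrArg Prod.fst hx
      simpa using this
    have e2 : u' * c.2 + v' * d.2 = u * a.2 + v * b.2 := by
      have := congrArg Prod.snd hx
      simpa using this
    have h1 : u' * D a b c + v' * D a b d = 0 := by
      unfold D
      have hu1 : u = 1 - v := by linarith
      have hu2 : u' = 1 - v' := by linarith
      subst hu1
      subst hu2
      linear_combination (b.1 - a.1) * e2 - (b.2 - a.2) * e1
    have hc0 : D a b c ≠ 0 := by
      intro h0
      rw [h0, zero_mul] at h
      exact lt_irrefl _ h
    have h2 : u' * (D a b c * D a b c) + v' * (D a b c * D a b d) = 0 := by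
      linear_combination D a b c * h1
    have h3 : 0 < D a b c * D a b c := mul_self_pos.2 hc0
    rcases hv'.lt_or_eq with h4 | h4
    · have h5 := mul_pos h4 h
      have h6 := mul_nonneg hu' h3.le
      linarith
    · rw [← h4] at h2 huv'
      have h5 : u' = 1 := by linarith
      rw [h5] at h2
      linarith
  · intro h h'
    rw [Set.not_disjoint_iff]
    obtain ⟨n1, p1, q1⟩ := CRS_param _ _ h
    obtain ⟨n2, p2, q2⟩ := CRS_param _ _ h'
    refine ⟨(1 - D c d a / (D c d a - D c d b)) • a + (D c d a / (D c d a - D c d b)) • b,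
      ⟨_, _, q2, p2, by ring, rfl⟩, ⟨_, _, q1, p1, by ring, ?_⟩⟩
    have hK : D a b c - D a b d = -(D c d a - D c d b) := by
      unfold D
      ring
    have n3 : D c d a - D c d b ≠ 0 := n2
    rw [hK]
    apply Prod.ext
    · simp only [Prod.fst_add, Prod.smul_fst, smul_eq_mul]
      rw [div_neg]
      field_simp
      unfold D
      ring
    · simp only [Prod.snd_add, Prod.smul_snd, smul_eq_mul]
      rw [div_neg]
      field_simp
      unfold D
      ring

end Pool.Agent.helper14.AV
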